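import Pool.Agent.Helper46.T6.Stmts

set_option autoImplicit false

/-!
MP_2f9829_co: module BLKN (the number of permutations of the replicas which preserve the standard
matching).
-/

open Finset

namespace Pool.Agent.Helper46.T6

namespace Blkn91

/-- The permutation given by a permutation of the pairs and flips. -/
def mk {K : ℕ} (x : Equiv.Perm (Fin K) × (Fin K → Fin 2)) : Equiv.Perm (Fin K × Fin 2) where
  toFun y := (x.1 y.1, y.2 + x.2 y.1)
  invFun z := (x.1.symm z.1, z.2 - x.2 (x.1.symm z.1))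
  left_inv y := by simp
  right_inv z := by simp

theorem mk_apply {K : ℕ} (x : Equiv.Perm (Fin K) × (Fin K → Fin 2)) (p : Fin K) (i : Fin 2) :
    mk x (p, i) = (x.1 p, i + x.2 p) := rfl

theorem mk_inj {K : ℕ} : Function.Injective (mk (K := K)) := by
  rintro ⟨e, f⟩ ⟨e', f'⟩ h
  have h1 : ∀ p, (e p, f p) = (e' p, f' p) := by
    intro p
    have := congrArg (fun π : Equiv.Perm (Fin K × Fin 2) => π (p, 0)) h
    simpa [mk_apply] using this
  have h2 : e = e' := Equiv.ext fun p => (Prod.mk.injEq _ _ _ _ ▸ h1 p).1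
  have h3 : f = f' := funext fun p => (Prod.mk.injEq _ _ _ _ ▸ h1 p).2
  rw [h2, h3]

theorem mk_blk {K : ℕ} (x : Equiv.Perm (Fin K) × (Fin K → Fin 2)) : Blk (mk x) := by
  intro p
  simp [mk_apply]

theorem fin2 (a b c : Fin 2) (h : a ≠ b) : c = a ∨ c = b := by
  revert a b c; decide

theorem fin2' (a b : Fin 2) (h : a ≠ b) : b = 1 + a := by
  revert a b; decide

theorem snd_ne {K : ℕ} (π : Equiv.Perm (Fin K × Fin 2)) (h : Blk π) (p : Fin K) :
    (π (p, 0)).2 ≠ (π (p, 1)).2 := by
  intro h2
  have h3 : π (p, 0) = π (p, 1) := Prod.ext (h p) h2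
  have h4 := π.injective h3
  simp at h4

theorem fst_inj {K : ℕ} (π : Equiv.Perm (Fin K × Fin 2)) (h : Blk π) :
    Function.Injective (fun p => (π (p, 0)).1) := by
  intro p p' hp
  simp only at hp
  rcases fin2 _ _ (π (p', 0)).2 (snd_ne π h p) with h1 | h1
  · have h2 : π (p', 0) = π (p, 0) := Prod.ext hp.symm h1
    have h3 := π.injective h2
    simp only [Prod.mk.injEq, and_true] at h3
    exact h3.symm
  · have h2 : π (p', 0) = π (p, 1) := Prod.ext (hp.symm.trans (h p)) h1
    have h3 := π.injective h2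
    simp at h3

theorem blk_mk {K : ℕ} (π : Equiv.Perm (Fin K × Fin 2)) (h : Blk π) : ∃ x, mk x = π := by
  refine ⟨(Equiv.ofBijective _ (Finite.injective_iff_bijective.1 (fst_inj π h)),
    fun p => (π (p, 0)).2), ?_⟩
  ext1 ⟨p, i⟩
  rw [mk_apply]
  have hi : i = 0 ∨ i = 1 := by
    revert i; decide
  rcases hi with rfl | rfl
  · exact Prod.ext rfl (by simp)
  · exact Prod.ext (h p) (fin2' _ _ (snd_ne π h p)).symm

end Blkn91

/-- BLKN. -/
theorem st_BLKN : ST_BLKN := by
  classical
  intro K
  have h1 : (univ.filter (fun π : Equiv.Perm (Fin K × Fin 2) => Blk π)) =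
      (univ : Finset (Equiv.Perm (Fin K) × (Fin K → Fin 2))).image Blkn91.mk := by
    ext π
    simp only [mem_filter, mem_univ, true_and, mem_image]
    constructor
    · exact Blkn91.blk_mk π
    · rintro ⟨x, rfl⟩
      exact Blkn91.mk_blk x
  have h2 : (univ.filter (fun π : Equiv.Perm (Fin K × Fin 2) => Blk π)).card =
      2 ^ K * K.factorial := by
    rw [h1, card_image_of_injective _ Blkn91.mk_inj, card_univ, Fintype.card_prod,
      Fintype.card_perm, Fintype.card_fun, Fintype.card_fin, Fintype.card_fin, mul_comm]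
  convert h2

end Pool.Agent.Helper46.T6
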