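import Pool.Agent.Helper46.T6.Stmts
import Pool.Agent.Helper15.T6.Stmts

set_option autoImplicit false

/-!
MP_2f9829_co: modules TOT and RATG for degree `d` (all even moments, assembly of the Laplace method).
-/

open Finset MeasureTheory Filter Topology

namespace Pool.Agent.Helper46.T6

open Pool.Agent.Helper15.T6

namespace Tot91

theorem df_fac (K : ℕ) : df K * (2 ^ K * (K.factorial : ℝ)) = ((2 * K).factorial : ℝ) := by
  induction K with
  | zero => simp [df]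
  | succ K ih =>
    have h1 : df (K + 1) = df K * (2 * (K : ℝ) + 1) := by
      unfold df
      rw [prod_range_succ]
    have h2 : (2 * (K + 1)).factorial = (2 * K + 2) * ((2 * K + 1) * (2 * K).factorial) := by
      rw [show 2 * (K + 1) = 2 * K + 1 + 1 from by ring, Nat.factorial_succ, Nat.factorial_succ]
    rw [h1, h2, Nat.factorial_succ, pow_succ]
    push_cast
    rw [← ih]
    ring

theorem df_pos (K : ℕ) : 0 < df K := by
  unfold df
  exact prod_pos fun i _ => by positivity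

theorem qd_pos (d : ℕ) (hd : 1 ≤ d) : 0 < qd d := by
  unfold qd
  have h1 : (0 : ℝ) < d := by exact_mod_cast hd
  have h2 : (0 : ℝ) < (d.factorial : ℝ) := by exact_mod_cast Nat.factorial_pos d
  have h3 : 0 < Real.sqrt d := Real.sqrt_pos.2 h1
  positivity

/-- The constant of the scale. -/
noncomputable def aa (d : ℕ) : ℝ :=
  (2 : ℝ) ^ (-(((d : ℝ) * (d + 1) / 2 - 1) / 2)) * (d : ℝ) ^ ((d : ℝ) * (d - 1) / 4)

theorem aa_pos (d : ℕ) (hd : 1 ≤ d) : 0 < aa d := by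
  unfold aa
  have h1 : (0 : ℝ) < d := by exact_mod_cast hd
  exact mul_pos (Real.rpow_pos_of_pos (by norm_num) _) (Real.rpow_pos_of_pos h1 _)

theorem sNd_pos (d N : ℕ) (hd : 1 ≤ d) (hp : 0 < psiN d N) : 0 < sNd d N := by
  have h1 := aa_pos d hd
  have h2 := qd_pos d hd
  have h3 : sNd d N = (qd d ^ 2) ^ N * aa d / (2 * psiN d N) := rfl
  rw [h3]
  positivity

theorem NFd_pos (d N : ℕ) (hd : 1 ≤ d) (hN : 0 < N) : 0 < NFd d N := by
  unfold NFd
  have h1 : (0 : ℝ) < d := by exact_mod_cast hd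
  have : (0 : ℝ) < N := by exact_mod_cast hN
  positivity

/-- The constant in front of the Laplace integral. -/
noncomputable def cc (d K : ℕ) : ℝ :=
  ((d : ℝ) / (2 * Real.pi)) ^ ((d : ℝ) ^ (2 * K) / 2) * (2 * ((2 * K).factorial : ℝ) * 2 ^ K /
    aa d ^ K)

theorem real_id (d K N : ℕ) (hd : 1 ≤ d) (hN : 0 < N) (hp : 0 < psiN d N) (I : ℝ) :
    ((d : ℝ) * (N : ℝ) / Real.pi) ^ ((d : ℝ) ^ (2 * K) / 2) * NFd d N * (qd d ^ (2 * K)) ^ N *
      (2 * ((2 * K).factorial : ℝ) * I) / (NFd d N * sNd d N ^ K) =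
    cc d K * ((2 * (N : ℝ)) ^ ((d : ℝ) ^ (2 * K) / 2) * psiN d N ^ K * I) := by
  have hNr : (0 : ℝ) < N := by exact_mod_cast hN
  have hdr : (0 : ℝ) < d := by exact_mod_cast hd
  have hx : (0 : ℝ) < 2 * (N : ℝ) := by positivity
  have hpi := Real.pi_pos
  have h1 : ((d : ℝ) * (N : ℝ) / Real.pi) ^ ((d : ℝ) ^ (2 * K) / 2) =
      ((d : ℝ) / (2 * Real.pi)) ^ ((d : ℝ) ^ (2 * K) / 2) *
        (2 * (N : ℝ)) ^ ((d : ℝ) ^ (2 * K) / 2) := by
    rw [← Real.mul_rpow (by positivity) hx.le]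
    congr 1
    field_simp
  have h3 : (qd d ^ (2 * K)) ^ N = ((qd d ^ 2) ^ N) ^ K := by
    rw [← pow_mul, ← pow_mul, ← pow_mul]
    congr 1
    ring
  have h4 := NFd_pos d N hd hN
  have h5 := qd_pos d hd
  have h6 := aa_pos d hd
  have h7 : sNd d N = (qd d ^ 2) ^ N * aa d / (2 * psiN d N) := rfl
  rw [h1, h3, h7]
  unfold cc
  have h8 : 0 < (qd d ^ 2) ^ N := by positivity
  generalize (qd d ^ 2) ^ N = c at h8
  generalize NFd d N = e at h4
  generalize aa d = a at h6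
  generalize psiN d N = p at hp
  generalize (2 * (N : ℝ)) ^ ((d : ℝ) ^ (2 * K) / 2) = t
  generalize ((d : ℝ) / (2 * Real.pi)) ^ ((d : ℝ) ^ (2 * K) / 2) = f
  rw [div_pow, mul_pow, mul_pow]
  have ha : a ^ K ≠ 0 := pow_ne_zero _ h6.ne'
  have hc : c ^ K ≠ 0 := pow_ne_zero _ h8.ne'
  have hpp : p ^ K ≠ 0 := pow_ne_zero _ hp.ne'
  have he : e ≠ 0 := h4.ne'
  field_simp

theorem lim_id (d K : ℕ) (hd : 1 ≤ d) (P E : ℝ)
    (h : (d : ℝ) ^ ((d : ℝ) ^ (2 * K) / 2) * P = (Real.sqrt 2)⁻¹ * aa d ^ K * E) :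
    cc d K * ((4 ^ K * (K.factorial : ℝ))⁻¹ *
      ((2 * Real.pi) ^ ((d : ℝ) ^ (2 * K) / 2) * P)) = Real.sqrt 2 * (df K * E) := by
  have hdr : (0 : ℝ) < d := by exact_mod_cast hd
  have hpi := Real.pi_pos
  have h1 : ((d : ℝ) / (2 * Real.pi)) ^ ((d : ℝ) ^ (2 * K) / 2) *
      (2 * Real.pi) ^ ((d : ℝ) ^ (2 * K) / 2) = (d : ℝ) ^ ((d : ℝ) ^ (2 * K) / 2) := by
    rw [← Real.mul_rpow (by positivity) (by positivity)]
    congr 1
    field_simp
  have h8 := df_fac K
  have hs2 : (0 : ℝ) < Real.sqrt 2 := by positivity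
  have hq2 : Real.sqrt 2 ^ 2 = 2 := Real.sq_sqrt (by norm_num)
  have hK : (0 : ℝ) < (K.factorial : ℝ) := by exact_mod_cast Nat.factorial_pos K
  have ha := pow_pos (aa_pos d hd) K
  calc cc d K * ((4 ^ K * (K.factorial : ℝ))⁻¹ *
        ((2 * Real.pi) ^ ((d : ℝ) ^ (2 * K) / 2) * P))
      = (((d : ℝ) / (2 * Real.pi)) ^ ((d : ℝ) ^ (2 * K) / 2) *
          (2 * Real.pi) ^ ((d : ℝ) ^ (2 * K) / 2)) * P *
          ((2 * ((2 * K).factorial : ℝ) * 2 ^ K / aa d ^ K) * (4 ^ K * (K.factorial : ℝ))⁻¹) := by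
        unfold cc
        ring
    _ = ((Real.sqrt 2)⁻¹ * aa d ^ K * E) *
          ((2 * (df K * (2 ^ K * (K.factorial : ℝ))) * 2 ^ K / aa d ^ K) *
            (4 ^ K * (K.factorial : ℝ))⁻¹) := by
        rw [h1, h, h8]
    _ = Real.sqrt 2 * (df K * E) := by
        generalize aa d ^ K = a at ha
        have h4 : (4 : ℝ) ^ K = 2 ^ K * 2 ^ K := by
          rw [← mul_pow]
          norm_num
        rw [h4]
        generalize Real.sqrt 2 = s at hs2 hq2
        generalize (K.factorial : ℝ) = f at hK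
        generalize df K = g
        have h5 : (0 : ℝ) < 2 ^ K := by positivity
        generalize (2 : ℝ) ^ K = w at h5
        have e1 : (s⁻¹ * a * E) * ((2 * (g * (w * f)) * w / a) * (w * w * f)⁻¹) =
            2 * s⁻¹ * (g * E) := by
          field_simp
        rw [e1, ← hq2]
        field_simp

end Tot91

/-- TOT. -/
theorem st_TOT (fpi : ST_FPI) (lapf : ST_LAPF) (gint : ST_GINT) (prd : ST_PRD)
    (scal : ST_SCAL) (tight : ST_TIGHT) : ST_TOT := by
  intro d hd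
  have hd1 : 1 ≤ d := by omega
  have hpsi := (tight d hd1).1
  refine ⟨fun N _ => Tot91.sNd_pos d N hd1 (hpsi N).1, ?_⟩
  intro K
  have hL := (lapf d hd K).const_mul (Tot91.cc d K)
  have hlim : Tot91.cc d K * ((4 ^ K * (K.factorial : ℝ))⁻¹ *
      ∫ t, Real.exp (-(Qd d K t + tqd d K t) / 2)) = Real.sqrt 2 * mom d K := by
    have h1 := gint d hd K
    have h2 := prd d hd K
    rw [h1]
    exact Tot91.lim_id d K hd1 _ _ h2
  rw [hlim] at hL
  refine hL.congr' ?_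
  filter_upwards [eventually_gt_atTop 0] with N hN
  rw [scal d hd1 K N hN, fpi d K N hd1 hN, Tot91.real_id d K N hd1 hN (hpsi N).1]

namespace Tot91

theorem mom_zero (d : ℕ) : mom d 0 = 1 := by
  unfold mom df
  simp

theorem mom_one (d : ℕ) : mom d 1 = 1 := by
  unfold mom df
  simp

theorem ratio_id (n s a b c A B C : ℝ) (K : ℕ) (hn : n ≠ 0) (hs : s ≠ 0)
    (hA : A = n * s ^ K * a) (hB : B = n * b) (hC : C = n * s * c) :
    (A / B) / (C / B) ^ K = (a / b) / (c / b) ^ K := by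
  have h1 : A / B = s ^ K * (a / b) := by
    rw [hA, hB, mul_assoc, mul_div_mul_left _ _ hn, mul_div_assoc]
  have h2 : C / B = s * (c / b) := by
    rw [hC, hB, mul_assoc, mul_div_mul_left _ _ hn, mul_div_assoc]
  rw [h1, h2, mul_pow, mul_div_mul_left _ _ (pow_ne_zero _ hs)]

end Tot91

/-- RATG. -/
theorem st_RATG (tot : ST_TOT) : Pool.Agent.Helper15.T6.ST_RATG := by
  intro d hd K
  obtain ⟨hs, ht⟩ := tot d hd
  have hd1 : 1 ≤ d := by omega
  have h2 : Real.sqrt 2 ≠ 0 := by positivity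
  have t0 := ht 0
  have t1 := ht 1
  have tK := ht K
  rw [Tot91.mom_zero, mul_one] at t0
  rw [Tot91.mom_one, mul_one] at t1
  have hlim := (tK.div t0 h2).div ((t1.div t0 h2).pow K) (by
    rw [div_self h2, one_pow]
    exact one_ne_zero)
  rw [div_self h2, one_pow, div_one, mul_div_cancel_left₀ _ h2] at hlim
  refine hlim.congr' ?_
  filter_upwards [eventually_gt_atTop 0] with N hN
  have hn := (Tot91.NFd_pos d N hd1 hN).ne'
  have hsN := (hs N hN).ne'
  refine (Tot91.ratio_id (NFd d N) (sNd d N) _ _ _ _ _ _ K hn hsN ?_ ?_ ?_).symm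
  · exact (mul_div_cancel₀ _ (mul_ne_zero hn (pow_ne_zero _ hsN))).symm
  · beta_reduce
    rw [pow_zero, mul_one]
    exact (mul_div_cancel₀ _ hn).symm
  · beta_reduce
    rw [pow_one]
    exact (mul_div_cancel₀ _ (mul_ne_zero hn hsN)).symm

end Pool.Agent.Helper46.T6
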